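import Pool.Agent.MP_8c4891_lc.Defs

namespace Pool.Agent.MP_8c4891_lc

/-- Every edge `u → v` of type `i` that lies on a directed cycle of edges of type `i` (that is,
`u` can be reached from `v` along edges of type `i`) has its reverse `v → u` in type `i`. -/
def Position.Rev (P : Position) : Prop :=
  ∀ i u v, P.E i u v = true → Relation.ReflTransGen (fun a b => P.E i a b = true) v u →
    P.E i v u = true

/-- The graph and all the edge sets are symmetric. -/
def Position.Undirected (P : Position) : Prop :=
  (∀ u v, P.G u v = P.G v u) ∧ ∀ i u v, P.E i u v = P.E i v u

/-- Decidable in polynomial space: a halting stack machine computes the bit `f a`, and every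
stack has polynomial length in every configuration of the run. -/
def PSpace {α : Type} (ea : α → List Bool) (f : α → Bool) : Prop :=
  ∃ (M : Turing.TM2Computable ea Computability.encodeBool f) (p : Polynomial ℕ),
    ∀ (a : α) (t : ℕ) (c : M.tm.Cfg),
      (fun o : Option M.tm.Cfg => o.bind M.tm.step)^[t]
        (some (Turing.initList M.tm ((ea a).map M.inputAlphabet.invFun))) = some c →
      ∀ k, (c.stk k).length ≤ p.eval (ea a).length

end Pool.Agent.MP_8c4891_lc
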