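import Pool.Agent.MP_8c4891_lc.Und.Defs
import Pool.Agent.Mg.F2e8011.G9612b2
import Pool.Agent.Mg.F2e8011.Gfec4ad

/-! Annihilation with reversible cycles is in polynomial space. -/

namespace Pool.Agent.MP_8c4891_lc.Und

open Pool.Agent.MP_2e8011_lc

section abstract

variable {S : Type} {Mv : S → S → Prop}

theorem irr_aux {b : Bool} {p : S} (h : Forces Mv b p) :
    (b = true → ∃ q, Mv p q ∧ ¬ Mv q p ∧ Forces Mv false q) ∧
    (b = false → ∀ r, Mv p r → ∃ q, Mv r q ∧ ¬ Mv q r ∧ Forces Mv false q) := by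
  induction h with
  | @win p q h1 h2 ih =>
    refine ⟨fun _ => ?_, fun h => by simp at h⟩
    by_cases h3 : Mv q p
    · exact ih.2 rfl p h3
    · exact ⟨q, h1, h3, h2⟩
  | lose _ ih => exact ⟨fun h => by simp at h, fun _ r hr => (ih r hr).1 rfl⟩

/-- A won position has a winning move that cannot be taken back. -/
theorem irr {p : S} (h : Forces Mv true p) : ∃ q, Mv p q ∧ ¬ Mv q p ∧ Forces Mv false q :=
  (irr_aux h).1 rfl

theorem lose_iff {p : S} : Forces Mv false p ↔ ∀ q, Mv p q → Forces Mv true q :=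
  ⟨fun h => by cases h with | lose h => exact h, Forces.lose⟩

theorem bounded {Φ : S → ℕ} (h1 : ∀ p q, Mv p q → Φ q ≤ Φ p)
    (h2 : ∀ p q, Mv p q → ¬ Mv q p → Φ q < Φ p) (N : ℕ) : ∀ p, Φ p < N →
      (Forces Mv true p → ForcesIn Mv (2 * N) true p) ∧
      (Forces Mv false p → ForcesIn Mv (2 * N + 1) false p) := by
  induction N with
  | zero => intro p h; omega
  | succ N ih =>
    have key : ∀ p, Φ p < N + 1 → Forces Mv true p → ForcesIn Mv (2 * (N + 1)) true p := by
      intro p hp h
      obtain ⟨q, k1, k2, k3⟩ := irr h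
      exact ⟨q, k1, (ih q (by have := h2 p q k1 k2; omega)).2 k3⟩
    intro p hp
    exact ⟨key p hp, fun h q hq => key q (by have := h1 p q hq; omega) (lose_iff.1 h q hq)⟩

end abstract

theorem move_back {V ι : Type} [DecidableEq V] {E : ι → V → V → Prop} {p : V → Option ι} {i : ι}
    {u v : V} (hu : p u = some i) (hv : p v = none) (he : E i v u) :
    Move E (Function.update (Function.update p u none) v (some i)) p := by
  have huv : u ≠ v := by
    rintro rfl
    rw [hu] at hv
    simp at hv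
  refine ⟨i, v, u, by simp, he, ?_⟩
  funext w
  by_cases h1 : w = u
  · subst h1
    simp [huv, hu]
  · by_cases h2 : w = v
    · subst h2
      simp [h1, hv]
    · simp [h1, h2]

theorem sum_upd {V β : Type} [Fintype V] [DecidableEq V] (g : V → β → ℕ) (p : V → β) (u : V)
    (x : β) : ∑ w, g w (Function.update p u x w) + g u (p u) = ∑ w, g w (p w) + g u x := by
  rw [← Finset.add_sum_erase _ _ (Finset.mem_univ u),
    ← Finset.add_sum_erase _ (fun w => g w (p w)) (Finset.mem_univ u), Function.update_self,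
    Finset.sum_congr rfl fun w hw => by rw [Function.update_of_ne (Finset.ne_of_mem_erase hw)]]
  omega

section potential

variable (P : Position)

open Classical in
/-- The vertices a token can reach. -/
noncomputable def reach (i : Fin P.t) (u : Fin P.n) : Finset (Fin P.n) :=
  Finset.univ.filter fun w => Relation.ReflTransGen (fun a b => P.E i a b = true) u w

/-- The potential of a placement. -/
noncomputable def pot (p : Fin P.n → Option (Fin P.t)) : ℕ :=
  ∑ u, (p u).elim 0 fun i => (reach P i u).card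

theorem pot_le (p : Fin P.n → Option (Fin P.t)) : pot P p ≤ P.n * P.n := by
  refine (Finset.sum_le_card_nsmul _ _ P.n fun u _ => ?_).trans (by simp)
  cases p u with
  | none => simp
  | some i => simpa using Finset.card_le_univ (reach P i u)

theorem pot_move (hP : P.Rev) (p q : Fin P.n → Option (Fin P.t))
    (h : Move (fun i u v => P.E i u v = true) p q) :
    pot P q ≤ pot P p ∧ (¬ Move (fun i u v => P.E i u v = true) q p → pot P q < pot P p) := by
  obtain ⟨i, u, v, hu, he, rfl⟩ := h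
  have huv : v ≠ u := by
    rintro rfl
    have := P.sub _ _ _ he
    rw [P.loopless] at this
    simp at this
  have e1 := sum_upd (fun w (o : Option (Fin P.t)) => o.elim 0 fun i => (reach P i w).card) p u none
  have e2 := sum_upd (fun w (o : Option (Fin P.t)) => o.elim 0 fun i => (reach P i w).card)
    (Function.update p u none) v (if (p v).isSome then none else some i)
  have hm : u ∈ reach P i u := by simp [reach, Relation.ReflTransGen.refl]
  have e3 := Finset.card_pos.2 ⟨u, hm⟩
  have e4 : reach P i v ⊆ reach P i u := by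
    intro w
    simp only [reach, Finset.mem_filter, Finset.mem_univ, true_and]
    exact Relation.ReflTransGen.head he
  have e5 := Finset.card_le_card e4
  rw [Function.update_of_ne huv] at e2
  simp only [hu, Option.elim_none, Option.elim_some] at e1
  unfold pot
  rcases hv : p v with _ | j
  · simp only [hv, Option.isSome_none, Bool.false_eq_true, if_false, Option.elim_none,
      Option.elim_some] at e2 ⊢
    refine ⟨by omega, fun hn => ?_⟩
    by_contra hc
    have e6 := Finset.eq_of_subset_of_card_le e4 (by omega)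
    rw [← e6] at hm
    simp only [reach, Finset.mem_filter, Finset.mem_univ, true_and] at hm
    exact hn (move_back hu hv (hP i u v he hm))
  · simp only [hv, Option.isSome_some, if_true, Option.elim_none, Option.elim_some] at e2 ⊢
    exact ⟨by omega, fun _ => by omega⟩

theorem won_iff (hP : P.Rev) {N : ℕ} (hN : P.n * P.n < N) (b : Bool) :
    P.Won b ↔ ForcesIn (Move fun i u v => P.E i u v = true) (2 * N + 1) b P.place := by
  refine ⟨fun h => ?_, ForcesIn.forces _ _ _⟩
  have := bounded (fun p q h => (pot_move P hP p q h).1) (fun p q h => (pot_move P hP p q h).2) N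
    P.place ((pot_le P _).trans_lt hN)
  cases b with
  | true => exact ForcesIn.succ _ _ _ (this.1 h)
  | false => exact this.2 h

end potential

/-- The fixed part of a search state. -/
abbrev Cx : Type := ℕ × List (List (List Bool))

/-- A search state: fixed part, remaining depth, which player is examined, placement. -/
abbrev St : Type := Cx × ℕ × Bool × List ℕ

/-- The children of a search state. -/
def kids (x : St) : List St :=
  bif decide (x.2.1 = 0) then (bif x.2.2.1 then [] else [(x.1, 0, true, x.2.2.2)])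
  else (succs x.1.1 x.1.2 x.2.2.2).map fun l => (x.1, x.2.1 - 1, !x.2.2.1, l)

/-- The value of a search state. -/
def val (c : Cx) : ℕ → Bool → List ℕ → Bool
  | 0, r, _ => !r
  | k + 1, r, l => (succs c.1 c.2 l).any fun l' => !val c k (!r) l'

theorem val_eq (x : St) : val x.1 x.2.1 x.2.2.1 x.2.2.2 =
    (kids x).any fun y => !val y.1 y.2.1 y.2.2.1 y.2.2.2 := by
  obtain ⟨c, k, r, l⟩ := x
  cases k with
  | zero => cases r <;> simp [kids, val]
  | succ k => simp [kids, val, List.any_map, Function.comp_def]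

theorem val_iff (P : Position) (k : ℕ) : ∀ (r : Bool) (p : Fin P.n → Option (Fin P.t)),
    val (P.n, P.data.2.1) k r (rep p) = r ↔ ForcesIn (Move fun i u v => P.E i u v = true) k r p := by
  induction k with
  | zero => intro r p; cases r <;> simp [val, ForcesIn]
  | succ k ih =>
    intro r p
    cases r with
    | true =>
      simp only [val, ForcesIn, List.any_eq_true, mem_succs, Bool.not_true, Bool.not_eq_true', ← ih]
      constructor
      · rintro ⟨_, ⟨q, h1, rfl⟩, h2⟩
        exact ⟨q, h1, h2⟩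
      · rintro ⟨q, h1, h2⟩
        exact ⟨_, ⟨q, h1, rfl⟩, h2⟩
    | false =>
      simp only [val, ForcesIn, List.any_eq_false, mem_succs, Bool.not_false, Bool.not_eq_true',
        Bool.not_eq_false, ← ih]
      constructor
      · intro h q hq
        exact h _ ⟨q, hq, rfl⟩
      · rintro h _ ⟨q, hq, rfl⟩
        exact h q hq

theorem length_succs (n : ℕ) (Es : List (List (List Bool))) (l : List ℕ) :
    (succs n Es l).length ≤ n * n := by
  rw [succs, List.length_flatMap]
  refine (List.sum_le_card_nsmul _ n fun x hx => ?_).trans (by simp)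
  obtain ⟨u, -, rfl⟩ := List.mem_map.1 hx
  rw [List.length_map]
  exact (List.length_filter_le _ _).trans (by simp)

theorem pt_kids : PT kids := by
  unfold kids succs mvL
  fun_prop

/-- Depth of the search. -/
def dep (s : ℕ) : ℕ := 2 * (s * s + 1) + 1

/-- Bound for the size of a list of children. -/
def wid (s : ℕ) : ℕ :=
  (s * s + 1) * (2 * (2 * (3 * s + 1) + 1 + (2 * dep s + 1 + (3 + s * (2 * s + 1)))) + 1)

open Pool.Agent.MP_79e5e2_lc.Mem in
open Classical in
theorem member (b : Bool) :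
    PSpace (fun P : {P : Position // P.Rev} => P.1.code) (fun P => decide (P.1.Won b)) := by
  have h1 := pt_kids
  refine pspace_of_iter (σ := List (List St)) _ (fun P : {P : Position // P.Rev} => P.1.data)
    (fun P => P.1.code_eq) _
    (init := fun d : Dt => [kids ((d.1.length, d.2.1), dep (sz d), b,
      initL d.1.length d.2.1.length d.2.2)])
    (step := dStep kids) (done := dDone) (out := fun st => bif b then st.isEmpty else !st.isEmpty)
    (by unfold initL dep; fun_prop) (by unfold dStep; fun_prop) (by unfold dDone; fun_prop)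
    (by fun_prop) (B := fun d => (2 * dep (sz d) + 2 + 1) * (2 * wid (sz d) + 1))
    (PT.pb (by unfold wid dep; fun_prop)) ?_
  rintro ⟨P, hP⟩
  have e1 : P.data.1.length = P.n := by simp [Position.data]
  have e2 : P.data.2.1.length = P.t := by simp [Position.data]
  simp only [e1, e2, initL_eq]
  set s := sz P.data with hs
  have hn : P.n ≤ s ∧ P.t ≤ s ∧ sz P.data.2.1 ≤ s := by
    have k1 := length_le_sz P.data.1
    have k2 := length_le_sz P.data.2.1
    have k3 : s = 2 * sz P.data.1 + 1 + (2 * sz P.data.2.1 + 1 + sz P.data.2.2) := by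
      rw [hs, ← sz_prod, ← sz_prod]
    omega
  have hnn : P.n * P.n ≤ s * s := Nat.mul_le_mul hn.1 hn.1
  let G : ℕ → St → Prop := fun m x => x.1 = (P.n, P.data.2.1) ∧ x.2.1 ≤ dep s ∧
    2 * x.2.1 + (bif x.2.2.1 then 0 else 1) < m ∧ ∃ p : Fin P.n → Option (Fin P.t), x.2.2.2 = rep p
  have hG : ∀ m x, G (m + 1) x → ∀ y ∈ kids x, G m y := by
    rintro m ⟨c, k, r, l⟩ ⟨rfl, k2, k3, p, rfl⟩ y hy
    cases k with
    | zero =>
      cases r with
      | true => simp [kids] at hy
      | false =>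
        simp only [kids, decide_true, cond_true, cond_false, List.mem_singleton] at hy
        subst hy
        exact ⟨rfl, k2, by simpa using k3, p, rfl⟩
    | succ k =>
      simp only [kids, Nat.add_eq_zero_iff, one_ne_zero, and_false, decide_false, cond_false,
        List.mem_map, mem_succs] at hy
      obtain ⟨_, ⟨q, -, rfl⟩, rfl⟩ := hy
      refine ⟨rfl, by simp only at k2 ⊢; omega, ?_, q, rfl⟩
      cases r <;> simp at k3 ⊢ <;> omega
  have hF : ∀ m x, G m x → sz (kids x) ≤ wid s := by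
    intro m x hx
    have hx' : G (m + 1) x := ⟨hx.1, hx.2.1, hx.2.2.1.trans (Nat.lt_succ_self m), hx.2.2.2⟩
    refine (sz_le_of_forall (B := 2 * (3 * s + 1) + 1 + (2 * dep s + 1 + (3 + s * (2 * s + 1))))
      fun y hy => ?_).trans (Nat.mul_le_mul_right _ ?_)
    · obtain ⟨c, k, r, l⟩ := y
      obtain ⟨rfl, k2, -, p, rfl⟩ := hG m x hx' _ hy
      have k4 := (mem_allL _ _ _).1 (rep_mem p)
      have k5 := sz_le_of_forall (l := rep p) (B := s) fun a ha => by
        simpa using (k4.2 a ha).trans hn.2.1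
      have k6 : (rep p).length * (2 * s + 1) ≤ s * (2 * s + 1) :=
        Nat.mul_le_mul_right _ (k4.1.le.trans hn.1)
      simp only [sz_prod, sz_nat, sz_bool] at k2 ⊢
      omega
    · obtain ⟨c, k, r, l⟩ := x
      obtain ⟨rfl, -⟩ := hx
      have := length_succs P.n P.data.2.1 l
      cases k <;> cases r <;> simp [kids] <;> omega
  have h0 : G (2 * dep s + 2 + 1) ((P.n, P.data.2.1), dep s, b, rep P.place) :=
    ⟨rfl, le_rfl, by cases b <;> simp, _, rfl⟩
  have hr := dfs_run (succs := kids) (W := fun x => val x.1 x.2.1 x.2.2.1 x.2.2.2) (G := G)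
    (F := wid s) (B := (2 * dep s + 2 + 1) * (2 * wid s + 1)) (fun x h => by have := h.2.2.1; omega)
    hG hF val_eq (2 * dep s + 2) _ [] (hG _ _ h0) (hF _ _ h0) (by simp)
  rw [← val_eq] at hr
  have hw := (won_iff P hP (N := s * s + 1) (by omega) b).trans (val_iff P _ b P.place).symm
  refine ⟨_, hr, ?_, ?_⟩
  · cases val (P.n, P.data.2.1) (dep s) b (rep P.place) <;> rfl
  · rw [Bool.eq_iff_iff, decide_eq_true_eq, hw]
    change _ ↔ val (P.n, P.data.2.1) (dep s) b (rep P.place) = b
    cases val (P.n, P.data.2.1) (dep s) b (rep P.place) <;> cases b <;> simp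

end Pool.Agent.MP_8c4891_lc.Und

/-! Annihilation on undirected graphs is hard for polynomial space. -/

namespace Pool.Agent.MP_8c4891_lc.Und

open Pool.Agent.MP_2e8011_lc
open Pool.Agent.MP_79e5e2_lc (QVal QTrue QClosed qbfHard)

/-- The vertices meant for pinned tokens. -/
def pin (y : ℕ) : Bool := decide (y % 8 = 1) || decide (y % 8 = 2) || decide (y % 8 = 6)

/-- The type of a token at `y`. -/
def kind (y : ℕ) : Fin 2 := bif pin y then 1 else 0

/-- Vertices that are not exits. -/
def Site (y : ℕ) : Prop := y % 8 = 0 ∨ y % 8 = 1 ∨ y % 8 = 2 ∨ y % 8 = 6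

theorem kind_eq_zero {y : ℕ} : kind y = 0 ↔ ¬ (y % 8 = 1 ∨ y % 8 = 2 ∨ y % 8 = 6) := by
  have : pin y = true ↔ (y % 8 = 1 ∨ y % 8 = 2 ∨ y % 8 = 6) := by simp [pin, or_assoc]
  rw [← this, kind]
  cases pin y <;> simp

/-- The placement with tokens on `S`. -/
def pl (n : ℕ) (S : Finset ℕ) : Fin n → Option (Fin 2) :=
  fun u => if u.1 ∈ S then some (kind u.1) else none

theorem pl_kill {n : ℕ} (S : Finset ℕ) (u v : Fin n) :
    Function.update (Function.update (pl n S) u none) v none = pl n ((S.erase u.1).erase v.1) := by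
  funext w
  by_cases h1 : w = v
  · subst h1; simp [pl]
  · by_cases h2 : w = u
    · subst h2; simp [pl, h1]
    · simp [pl, h1, h2, Fin.val_inj]

theorem pl_step {n : ℕ} (S : Finset ℕ) (u v : Fin n) (h : kind v.1 = 0) :
    Function.update (Function.update (pl n S) u none) v (some 0) =
      pl n (insert v.1 (S.erase u.1)) := by
  funext w
  by_cases h1 : w = v
  · subst h1; simp [pl, h]
  · by_cases h2 : w = u
    · subst h2; simp [pl, h1, Fin.val_inj]
    · simp [pl, h1, h2, Fin.val_inj]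

section game

variable {n : ℕ} {B : ℕ → ℕ → Prop} {E : Fin 2 → Fin n → Fin n → Prop}
  (hE : ∀ i u v, E i u v ↔ i = 0 ∧ (B u.1 v.1 ∨ B v.1 u.1))
  (hB : ∀ e y, B e y → ¬ Site e ∧ Site y ∧ e < n ∧ y < n)

include hE hB

theorem mv_kill {S : Finset ℕ} {e y : ℕ} (he : e ∈ S) (hy : y ∈ S) (h : B e y) :
    Move E (pl n S) (pl n ((S.erase e).erase y)) := by
  obtain ⟨h1, -, h3, h4⟩ := hB e y h
  have hk : kind e = 0 := by rw [kind_eq_zero]; unfold Site at h1; omega
  refine ⟨0, ⟨e, h3⟩, ⟨y, h4⟩, by simp [pl, he, hk], (hE _ _ _).2 ⟨rfl, Or.inl h⟩, ?_⟩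
  rw [if_pos (by simp [pl, hy]), pl_kill]

omit hB in
theorem kill {S : Finset ℕ} (h : Forces (Move E) true (pl n S)) :
    ∃ e ∈ S, ∃ y ∈ S, B e y ∧ Forces (Move E) false (pl n ((S.erase e).erase y)) := by
  obtain ⟨_, ⟨i, u, v, h1, h2, rfl⟩, h3, h4⟩ := irr h
  have hu : u.1 ∈ S := by
    by_contra hc
    simp [pl, hc] at h1
  by_cases hv : v.1 ∈ S
  · rw [if_pos (by simp [pl, hv]), pl_kill] at h4
    rcases ((hE _ _ _).1 h2).2 with h5 | h5
    · exact ⟨_, hu, _, hv, h5, h4⟩
    · exact ⟨_, hv, _, hu, h5, by rwa [Finset.erase_right_comm]⟩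
  · rw [if_neg (by simp [pl, hv])] at h3
    exact (h3 (move_back h1 (by simp [pl, hv])
      ((hE _ _ _).2 ⟨((hE _ _ _).1 h2).1, ((hE _ _ _).1 h2).2.symm⟩))).elim

theorem rest1 {S : Finset ℕ} (hS : ∀ y ∈ S, Site y) : ¬ Forces (Move E) true (pl n S) := by
  intro h
  obtain ⟨e, he, y, -, h1, -⟩ := kill hE h
  exact (hB e y h1).1 (hS e he)

theorem mid {T : Finset ℕ} (hT : ∀ y ∈ T, Site y) {e : ℕ} (he : ¬ Site e) :
    Forces (Move E) true (pl n (insert e T)) ↔
      ∃ y ∈ T, B e y ∧ Forces (Move E) false (pl n (T.erase y)) := by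
  have h0 : (insert e T).erase e = T := Finset.erase_insert fun h => he (hT e h)
  constructor
  · intro h
    obtain ⟨e', he', y, hy, h1, h2⟩ := kill hE h
    obtain rfl : e' = e := (Finset.mem_insert.1 he').resolve_right fun h => (hB _ _ h1).1 (hT _ h)
    rw [h0] at h2
    refine ⟨y, (Finset.mem_insert.1 hy).resolve_left ?_, h1, h2⟩
    rintro rfl
    exact he (hB _ _ h1).2.1
  · rintro ⟨y, hy, h1, h2⟩
    have := mv_kill hE hB (Finset.mem_insert_self e T) (Finset.mem_insert_of_mem hy) h1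
    rw [h0] at this
    exact Forces.win this h2

theorem rest2 {S : Finset ℕ} (hS : ∀ y ∈ S, Site y) :
    Forces (Move E) false (pl n S) ↔ ∀ h ∈ S, kind h = 0 → ∀ e, B e h →
      ∃ y ∈ S.erase h, B e y ∧ Forces (Move E) false (pl n ((S.erase h).erase y)) := by
  have hS' : ∀ h, ∀ y ∈ S.erase h, Site y := fun h y hy => hS y (Finset.mem_of_mem_erase hy)
  have hk : ∀ e, ¬ Site e → kind e = 0 := by
    intro e h1
    rw [kind_eq_zero]; unfold Site at h1; omega
  rw [lose_iff]
  constructor
  · intro H h hh h0 e he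
    obtain ⟨h1, -, h3, h4⟩ := hB e h he
    have h5 : e ∉ S := fun h => h1 (hS e h)
    refine (mid hE hB (hS' h) h1).1 (H _ ⟨0, ⟨h, h4⟩, ⟨e, h3⟩, by simp [pl, hh, h0],
      (hE _ _ _).2 ⟨rfl, Or.inr he⟩, ?_⟩)
    rw [if_neg (by simp [pl, h5]), pl_step _ _ _ (hk e h1)]
  · rintro H _ ⟨i, u, v, h1, h2, rfl⟩
    have hu : u.1 ∈ S := by
      by_contra hc
      simp [pl, hc] at h1
    obtain ⟨rfl, h3⟩ := (hE _ _ _).1 h2
    have h4 := h3.resolve_left fun h => (hB _ _ h).1 (hS _ hu)
    have h5 := (hB _ _ h4).1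
    have h6 : v.1 ∉ S := fun h => h5 (hS _ h)
    rw [if_neg (by simp [pl, h6]), pl_step _ _ _ (hk _ h5)]
    exact (mid hE hB (hS' _) h5).2 (H _ hu (by simpa [pl, hu] using h1) _ h4)

end game

theorem qval_step {φ : CNF} {qs : List Bool} {k : ℕ} (hk : k < qs.length) (a : ℕ → Bool) :
    QVal φ (qs.drop k) k a ↔ ∀ s, ∃ s', (qs.getD k false = true ∨ s' = s) ∧
      QVal φ (qs.drop (k + 1)) (k + 1) (Function.update a k (!s')) := by
  rw [List.drop_eq_getElem_cons hk, List.getD_eq_getElem _ _ hk]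
  cases qs[k] <;> simp [QVal, and_comm, or_comm]

theorem advance {φ : CNF} {qs : List Bool} {k : ℕ} {a : ℕ → Bool} (h : QVal φ (qs.drop k) k a)
    {i : ℕ} (hi : k ≤ i) : i ≤ qs.length →
      ∃ a' : ℕ → Bool, (∀ j < k, a' j = a j) ∧ QVal φ (qs.drop i) i a' := by
  induction i, hi using Nat.le_induction with
  | base => exact fun _ => ⟨a, fun _ _ => rfl, h⟩
  | succ i hi ih =>
    intro h1
    obtain ⟨a', h2, h3⟩ := ih (by omega)
    obtain ⟨s', -, h4⟩ := (qval_step (by omega) a').1 h3 false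
    exact ⟨_, fun j hj => by rw [Function.update_of_ne (by omega), h2 j hj], h4⟩

/-- The vertex of a literal. -/
def lit (i : ℕ) (s : Bool) : ℕ := 8 * i + 1 + bn s

theorem lit_ne (i : ℕ) (s : Bool) (j : ℕ) : lit i s ≠ 8 * j := by
  cases s <;> simp [lit, bn] <;> omega

theorem lit_inj {i j : ℕ} {s r : Bool} : lit i s = lit j r ↔ i = j ∧ s = r := by
  cases s <;> cases r <;> simp [lit, bn] <;> omega

theorem lit_mod (i : ℕ) (s : Bool) : (lit i s % 8 = 1 ∨ lit i s % 8 = 2) ∧ lit i s / 8 = i := by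
  cases s <;> simp [lit, bn] <;> omega

/-- The exit `e` is joined to the site `y`. -/
def Adj (F : List Bool × CNF) (e y : ℕ) : Prop :=
  (∃ i < F.1.length, ∃ s, e = lit i s + 2 ∧ ((∃ j < i + 1, y = 8 * j) ∨
    ∃ s', (F.1.getD i false = true ∨ s' = s) ∧ y = lit i s')) ∨
  (∃ k < F.2.length, e = 8 * k + 5 ∧ ((∃ j < F.1.length + 1, y = 8 * j) ∨
    ∃ l ∈ F.2.getD k [], y = lit l.1 l.2)) ∨ (e = 7 ∧ y = 6)

variable {F : List Bool × CNF}

theorem getD_mem {k : ℕ} (hk : k < F.2.length) : F.2.getD k [] ∈ F.2 := by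
  rw [List.getD_eq_getElem _ _ hk]
  exact List.getElem_mem hk

theorem adj_site' {e y : ℕ} (h : Adj F e y) : ¬ Site e ∧ Site y := by
  unfold Site
  rcases h with ⟨i, -, s, rfl, ⟨j, -, rfl⟩ | ⟨s', -, rfl⟩⟩ | ⟨k, -, rfl, ⟨j, -, rfl⟩ | ⟨l, -, rfl⟩⟩ |
    ⟨rfl, rfl⟩
  · have := lit_mod i s; omega
  · have := lit_mod i s; have := lit_mod i s'; omega
  · omega
  · have := lit_mod l.1 l.2; omega
  · omega

theorem adj_site (hc : QClosed F) (e y : ℕ) (h : Adj F e y) : ¬ Site e ∧ Site y ∧
    e < 8 * (F.1.length + F.2.length + 1) ∧ y < 8 * (F.1.length + F.2.length + 1) := by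
  refine ⟨(adj_site' h).1, (adj_site' h).2, ?_⟩
  rcases h with ⟨i, hi, s, rfl, ⟨j, hj, rfl⟩ | ⟨s', -, rfl⟩⟩ |
    ⟨k, hk, rfl, ⟨j, hj, rfl⟩ | ⟨l, hl, rfl⟩⟩ | ⟨rfl, rfl⟩
  · have := lit_mod i s; omega
  · have := lit_mod i s; have := lit_mod i s'; omega
  · omega
  · have := lit_mod l.1 l.2; have := hc _ (getD_mem hk) l hl; omega
  · omega

theorem adj_X {i : ℕ} {s : Bool} {y : ℕ} (h : Adj F (lit i s + 2) y) : (∃ j < i + 1, y = 8 * j) ∨
    ∃ s', (F.1.getD i false = true ∨ s' = s) ∧ y = lit i s' := by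
  have := lit_mod i s
  rcases h with ⟨i', -, s', h1, h2⟩ | ⟨k, -, h1, -⟩ | ⟨h1, -⟩
  · obtain ⟨rfl, rfl⟩ := lit_inj.1 (Nat.add_right_cancel h1)
    exact h2
  · omega
  · omega

theorem adj_C {k y : ℕ} (h : Adj F (8 * k + 5) y) : (∃ j < F.1.length + 1, y = 8 * j) ∨
    ∃ l ∈ F.2.getD k [], y = lit l.1 l.2 := by
  rcases h with ⟨i, -, s, h1, -⟩ | ⟨k', -, h1, h2⟩ | ⟨h1, -⟩
  · have := lit_mod i s; omega
  · obtain rfl : k = k' := by omega
    exact h2
  · omega

theorem adj_7 {y : ℕ} : Adj F 7 y ↔ y = 6 := by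
  refine ⟨fun h => ?_, fun h => Or.inr (Or.inr ⟨rfl, h⟩)⟩
  rcases h with ⟨i, -, s, h1, -⟩ | ⟨k', -, h1, -⟩ | ⟨-, h1⟩
  · have := lit_mod i s; omega
  · omega
  · exact h1

theorem exit_cases {e h : ℕ} (he : Adj F e h) (hk : kind h = 0) :
    ∃ i ≤ F.1.length, (∃ j ≤ i, h = 8 * j) ∧ (∀ j ≤ i, Adj F e (8 * j)) ∧
      ((i < F.1.length ∧ ∃ s, ∀ s', (F.1.getD i false = true ∨ s' = s) → Adj F e (lit i s')) ∨
        (i = F.1.length ∧ ∃ c ∈ F.2, ∀ l ∈ c, Adj F e (lit l.1 l.2))) := by
  rw [kind_eq_zero] at hk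
  rcases he with ⟨i, hi, s, rfl, ⟨j, hj, rfl⟩ | ⟨s', -, rfl⟩⟩ |
    ⟨k, hk', rfl, ⟨j, hj, rfl⟩ | ⟨l, hl, rfl⟩⟩ | ⟨rfl, rfl⟩
  · exact ⟨i, hi.le, ⟨j, by omega, rfl⟩,
      fun j hj => Or.inl ⟨i, hi, s, rfl, Or.inl ⟨j, by omega, rfl⟩⟩,
      Or.inl ⟨hi, s, fun s' hs => Or.inl ⟨i, hi, s, rfl, Or.inr ⟨s', hs, rfl⟩⟩⟩⟩
  · have := lit_mod i s'; omega
  · exact ⟨_, le_rfl, ⟨j, by omega, rfl⟩,
      fun j hj => Or.inr (Or.inl ⟨k, hk', rfl, Or.inl ⟨j, by omega, rfl⟩⟩),
      Or.inr ⟨rfl, _, getD_mem hk', fun l hl => Or.inr (Or.inl ⟨k, hk', rfl, Or.inr ⟨l, hl, rfl⟩⟩)⟩⟩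
  · have := lit_mod l.1 l.2; omega
  · omega

/-- The invariant kept by the answering player. -/
def Inv (F : List Bool × CNF) (S : Finset ℕ) : Prop :=
  (∀ j ≤ F.1.length, 8 * j ∉ S) ∨ ∃ k a, QVal F.2 (F.1.drop k) k a ∧
    (∀ i < k, 8 * i ∉ S ∧ lit i (a i) ∈ S) ∧ ∀ i, k ≤ i → i < F.1.length → ∀ s, lit i s ∈ S

theorem answer (hc : QClosed F) {R : Finset ℕ → Prop}
    (hR : ∀ S : Finset ℕ, (∀ y ∈ S, Site y) → (∀ h ∈ S, kind h = 0 → ∀ e, Adj F e h →
      ∃ y ∈ S.erase h, Adj F e y ∧ R ((S.erase h).erase y)) → R S) (m : ℕ) :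
    ∀ S : Finset ℕ, S.card < m → (∀ y ∈ S, Site y) → Inv F S → R S := by
  induction m with
  | zero => intro S h; omega
  | succ m ih =>
    intro S hm hS hI
    refine hR S hS fun h hh hk e he => ?_
    have ih' : ∀ y, Inv F ((S.erase h).erase y) → R ((S.erase h).erase y) := fun y =>
      ih _ (by
        have h1 := Finset.card_erase_lt_of_mem hh
        have h2 := Finset.card_erase_le (s := S.erase h) (a := y)
        omega) fun z hz => hS z (Finset.mem_of_mem_erase (Finset.mem_of_mem_erase hz))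
    obtain ⟨i, hi, ⟨j, hj, rfl⟩, h1, h2⟩ := exit_cases he hk
    rcases hI with h3 | ⟨k, a, hq, h3, h4⟩
    · exact (h3 j (by omega) hh).elim
    have hkj : k ≤ j := by
      by_contra hlt
      exact (h3 j (by omega)).1 hh
    by_cases hp : ∃ j' ≤ i, 8 * j' ∈ S.erase (8 * j)
    · obtain ⟨j', h5, h6⟩ := hp
      refine ⟨_, h6, h1 j' h5, ih' _ (Or.inr ⟨k, a, hq, fun i' hi' => ?_, fun i' k1 k2 s => ?_⟩)⟩
      · simp [h3 i' hi', lit_ne]
      · simp [h4 i' k1 k2 s, lit_ne]
    push Not at hp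
    obtain ⟨a', h5, h6⟩ := advance hq (hkj.trans hj) hi
    have hl : ∀ i' < i, lit i' (a' i') ∈ S := by
      intro i' hi'
      by_cases h7 : i' < k
      · rw [h5 i' h7]; exact (h3 i' h7).2
      · exact h4 i' (by omega) (by omega) _
    rcases h2 with ⟨h7, s, h8⟩ | ⟨rfl, c, h7, h8⟩
    · obtain ⟨s', k1, k2⟩ := (qval_step h7 a').1 h6 s
      refine ⟨lit i s', by simp [lit_ne, h4 i (by omega) h7], h8 s' k1,
        ih' _ (Or.inr ⟨i + 1, _, k2, fun i' hi' => ⟨fun k3 => hp i' (by omega)
          (Finset.mem_of_mem_erase k3), ?_⟩, fun i' k3 k4 r => ?_⟩)⟩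
      · by_cases k3 : i' = i
        · subst k3
          simp [lit_ne, lit_inj, h4 i' (by omega) h7]
        · simp [lit_ne, lit_inj, k3, hl i' (by omega)]
      · have k5 : i' ≠ i := by omega
        simp [lit_ne, lit_inj, k5, h4 i' (by omega) k4]
    · rw [List.drop_length] at h6
      obtain ⟨l, k1, k2⟩ := h6 c h7
      refine ⟨lit l.1 l.2, ?_, h8 l k1, ih' _ (Or.inl fun j' k3 k4 =>
        hp j' k3 (Finset.mem_of_mem_erase k4))⟩
      have := hl l.1 (hc c h7 l k1)
      rw [k2] at this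
      simp [lit_ne, this]

theorem attack (hc : QClosed F) {R : Finset ℕ → Prop}
    (hR : ∀ S : Finset ℕ, (∀ y ∈ S, Site y) → R S → ∀ h ∈ S, kind h = 0 → ∀ e, Adj F e h →
      ∃ y ∈ S.erase h, Adj F e y ∧ R ((S.erase h).erase y)) (m : ℕ) :
    ∀ k, k + m = F.1.length → ∀ (S : Finset ℕ) (a : ℕ → Bool), (∀ y ∈ S, Site y) →
      (∀ j < k, 8 * j ∉ S ∧ lit j (!a j) ∉ S) → (∀ j, k ≤ j → j ≤ F.1.length → 8 * j ∈ S) →
      R S → QVal F.2 (F.1.drop k) k a := by
  have hk0 : ∀ j, kind (8 * j) = 0 := fun j => by rw [kind_eq_zero]; omega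
  induction m with
  | zero =>
    rintro _ rfl S a hS h1 h2 h3
    rw [List.drop_length]
    intro c hc'
    obtain ⟨k, hk, rfl⟩ := List.mem_iff_getElem.1 hc'
    obtain ⟨y, k1, k2, -⟩ := hR S hS h3 _ (h2 _ le_rfl le_rfl) (hk0 _) (8 * k + 5)
      (Or.inr (Or.inl ⟨k, hk, rfl, Or.inl ⟨_, Nat.lt_succ_self _, rfl⟩⟩))
    rw [Finset.mem_erase] at k1
    rcases adj_C k2 with ⟨j, hj, rfl⟩ | ⟨l, hl, rfl⟩
    · exact ((h1 j (by omega)).1 k1.2).elim
    · rw [List.getD_eq_getElem _ _ hk] at hl
      refine ⟨l, hl, ?_⟩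
      by_contra hne
      have := (h1 l.1 (hc _ hc' l hl)).2
      rw [show (!a l.1) = l.2 by
        revert hne
        cases a l.1 <;> cases l.2 <;> simp] at this
      exact this k1.2
  | succ m ih =>
    intro k hk S a hS h1 h2 h3
    rw [qval_step (by omega)]
    intro s
    obtain ⟨y, k1, k2, k3⟩ := hR S hS h3 _ (h2 k le_rfl (by omega)) (hk0 _) (lit k s + 2)
      (Or.inl ⟨k, by omega, s, rfl, Or.inl ⟨k, Nat.lt_succ_self _, rfl⟩⟩)
    rw [Finset.mem_erase] at k1
    rcases adj_X k2 with ⟨j, hj, rfl⟩ | ⟨s', hs, rfl⟩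
    · exact ((h1 j (by omega)).1 k1.2).elim
    · refine ⟨s', hs, ih (k + 1) (by omega) _ _
        (fun z hz => hS z (Finset.mem_of_mem_erase (Finset.mem_of_mem_erase hz)))
        (fun j hj => ?_) (fun j k4 k5 => ?_) k3⟩
      · by_cases k4 : j = k
        · subst k4; simp
        · simp [k4, h1 j (by omega)]
      · have k6 : j ≠ k := by omega
        simp [(lit_ne _ _ _).symm, k6, h2 j (by omega) k5]

/-- The two bits. -/
def bs : List Bool := [false, true]

theorem mem_bs (s : Bool) : s ∈ bs := by cases s <;> simp [bs]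

/-- The adjacency, as a computation. -/
def adj (F : List Bool × CNF) (e y : ℕ) : Bool :=
  ((List.range F.1.length).any fun i => bs.any fun s => decide (e = lit i s + 2) &&
    (((List.range (i + 1)).any fun j => decide (y = 8 * j)) ||
      bs.any fun s' => (F.1.getD i false || decide (s' = s)) && decide (y = lit i s'))) ||
  (((List.range F.2.length).any fun k => decide (e = 8 * k + 5) &&
    (((List.range (F.1.length + 1)).any fun j => decide (y = 8 * j)) ||
      (F.2.getD k []).any fun l => decide (y = lit l.1 l.2))) || (decide (e = 7) && decide (y = 6)))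

theorem adj_iff {e y : ℕ} : adj F e y = true ↔ Adj F e y := by
  simp only [adj, Adj, Bool.or_eq_true, List.any_eq_true, List.mem_range, mem_bs, true_and,
    Bool.and_eq_true, decide_eq_true_eq]

/-- The occupied vertices. -/
def tok (F : List Bool × CNF) (b : Bool) (y : ℕ) : Bool :=
  (decide (y % 8 = 0) && decide (y / 8 ≤ F.1.length)) ||
    ((decide (y % 8 = 1) || decide (y % 8 = 2)) && decide (y / 8 < F.1.length)) ||
    (b && (decide (y = 6) || decide (y = 7)))

/-- The number of vertices. -/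
def num (F : List Bool × CNF) : ℕ := 8 * (F.1.length + F.2.length + 1)

/-- The set of occupied vertices. -/
def toks (F : List Bool × CNF) (b : Bool) : Finset ℕ :=
  (Finset.range (num F)).filter fun y => tok F b y = true

theorem mem_toks {b : Bool} {y : ℕ} : y ∈ toks F b ↔ (y % 8 = 0 ∧ y / 8 ≤ F.1.length) ∨
    ((y % 8 = 1 ∨ y % 8 = 2) ∧ y / 8 < F.1.length) ∨ (b = true ∧ (y = 6 ∨ y = 7)) := by
  simp only [toks, tok, num, Finset.mem_filter, Finset.mem_range, Bool.or_eq_true, Bool.and_eq_true,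
    decide_eq_true_eq, or_assoc, and_iff_right_iff_imp]
  cases b <;> simp <;> omega

/-- The position attached to a formula. -/
def mkP (F : List Bool × CNF) (b : Bool) : Position where
  n := num F
  t := 2
  two_le := le_rfl
  G u v := adj F u v || adj F v u
  loopless u := by
    rw [Bool.or_self, Bool.eq_false_iff]
    exact fun h => (adj_site' (adj_iff.1 h)).1 (adj_site' (adj_iff.1 h)).2
  E i u v := decide (i = 0) && (adj F u v || adj F v u)
  sub i u v h := by
    rw [Bool.and_eq_true] at h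
    exact h.2
  place := pl _ (toks F b)

theorem mkP_won (hc : QClosed F) (b : Bool) :
    (QTrue F ↔ (mkP F b).Won b) ∧ ¬ (mkP F b).Won (!b) := by
  have hE : ∀ (i : Fin 2) (u v : Fin (num F)), (mkP F b).E i u v = true ↔
      i = 0 ∧ (Adj F u.1 v.1 ∨ Adj F v.1 u.1) := by
    intro i u v
    simp [mkP, adj_iff]
  have hB := adj_site hc
  have hS : ∀ y ∈ toks F false, Site y := by
    intro y hy
    rw [mem_toks] at hy
    unfold Site
    simp at hy
    omega
  have key : QTrue F ↔ Forces (Move fun (i : Fin 2) (u v : Fin (num F)) =>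
      (mkP F b).E i u v = true) false (pl _ (toks F false)) := by
    constructor
    · intro h
      refine answer hc (R := fun S => Forces (Move fun (i : Fin 2) (u v : Fin (num F)) =>
        (mkP F b).E i u v = true) false (pl _ S)) (fun S hS => (rest2 hE hB hS).2) _ _
        (Nat.lt_succ_self _) hS (Or.inr ⟨0, _, h, fun i hi => by omega, fun i _ hi s => ?_⟩)
      have := lit_mod i s
      rw [mem_toks]
      omega
    · refine attack hc (R := fun S => Forces (Move fun (i : Fin 2) (u v : Fin (num F)) =>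
        (mkP F b).E i u v = true) false (pl _ S)) (fun S hS => (rest2 hE hB hS).1) _ 0
        (zero_add _) _ _ hS (fun i hi => by omega) fun j _ hj => ?_
      rw [mem_toks]
      omega
  cases b with
  | false => exact ⟨key, rest1 hE hB hS⟩
  | true =>
    have e1 : toks F true = insert 7 (insert 6 (toks F false)) := by
      ext y
      simp only [Finset.mem_insert, mem_toks]
      tauto
    have h6 : 6 ∉ toks F false := by simp [mem_toks]
    have h7 : 7 ∉ insert 6 (toks F false) := by simp [mem_toks]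
    have hT : ∀ y ∈ insert 6 (toks F false), Site y := by
      intro y hy
      rcases Finset.mem_insert.1 hy with rfl | hy
      · simp [Site]
      · exact hS y hy
    constructor
    · have h1 := mid hE hB hT (e := 7) (by simp [Site])
      rw [← e1] at h1
      refine key.trans (Iff.trans ?_ h1.symm)
      simp [adj_7, Finset.erase_insert h6]
    · intro h
      have h1 := mv_kill hE hB (S := toks F true) (e := 7) (y := 6) (by simp [e1]) (by simp [e1])
        (adj_7.2 rfl)
      have h2 := lose_iff.1 h _ h1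
      rw [e1, Finset.erase_insert h7, Finset.erase_insert h6] at h2
      exact rest1 hE hB hS h2

/-- The data of the position. -/
def dt (F : List Bool × CNF) (b : Bool) : Dt :=
  ((List.range (num F)).map fun u => (List.range (num F)).map fun v => adj F u v || adj F v u,
    [(List.range (num F)).map fun u => (List.range (num F)).map fun v => adj F u v || adj F v u,
      (List.range (num F)).map fun _ => (List.range (num F)).map fun _ => false],
    [(List.range (num F)).map fun u => tok F b u && !pin u,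
      (List.range (num F)).map fun u => tok F b u && pin u])

theorem mkP_data (b : Bool) : (mkP F b).data = dt F b := by
  have k0 : ∀ u : Fin (num F), pl _ (toks F b) u = some 0 ↔ (tok F b u && !pin u) = true := by
    intro u
    cases h1 : tok F b u <;> cases h2 : pin u <;> simp [pl, toks, kind, h1, h2]
  have k1 : ∀ u : Fin (num F), pl _ (toks F b) u = some 1 ↔ (tok F b u && pin u) = true := by
    intro u
    cases h1 : tok F b u <;> cases h2 : pin u <;> simp [pl, toks, kind, h1, h2]
  simp only [Position.data, mkP, dt, ← ofFn_val, List.ofFn_succ, List.ofFn_zero,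
    Fin.succ_zero_eq_one, k0, k1, Bool.decide_eq_true]
  rfl

theorem pt_dt (b : Bool) : PT (fun F : List Bool × CNF => dt F b) := by
  have h1 : PT (fun p : (List Bool × CNF) × ℕ × ℕ => adj p.1 p.2.1 p.2.2) := by
    unfold adj lit
    fun_prop
  have h2 : PT (fun F : List Bool × CNF => (List.range (num F)).map fun u =>
      (List.range (num F)).map fun v => adj F u v || adj F v u) := by
    have hn : PT num := by unfold num; fun_prop
    refine PT.map (PT.map (PT.or ?_ ?_) (by fun_prop)) (by fun_prop)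
    · exact h1.comp (f := fun p : ((List Bool × CNF) × ℕ) × ℕ => (p.1.1, p.1.2, p.2)) (by fun_prop)
    · exact h1.comp (f := fun p : ((List Bool × CNF) × ℕ) × ℕ => (p.1.1, p.2, p.1.2)) (by fun_prop)
  refine h2.prodMk (PT.prodMk (h2.cons ?_) ?_)
  · unfold num; fun_prop
  · unfold num tok pin; fun_prop

theorem hard (b : Bool) {L : List Bool → Bool} (hL : PSpace id L) :
    ∃ f : List Bool → Position, Nonempty (Turing.TM2ComputableInPolyTime id Position.code f) ∧
      ∀ x, (f x).Rev ∧ (f x).Undirected ∧ (f x).t = 2 ∧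
        (∀ i u v, i.1 = 1 → (f x).E i u v = false) ∧
        (L x = true ↔ (f x).Won b) ∧ ¬ (f x).Won (!b) := by
  obtain ⟨g, hg, h⟩ := qbfHard L hL
  have hU : ∀ x, (mkP (g x) b).Undirected := by
    refine fun x => ⟨fun u v => Bool.or_comm _ _, fun i u v => ?_⟩
    simp only [mkP]
    rw [Bool.or_comm]
  refine ⟨fun x => mkP (g x) b, ?_, fun x => ⟨fun i u v h1 _ => (hU x).2 i u v ▸ h1, hU x, rfl,
    fun i u v hi => ?_, (h x).2.trans (mkP_won (h x).1 b).1, (mkP_won (h x).1 b).2⟩⟩
  · have hx : PT Raw.bits := CP.toBits (α := Raw) CP.enc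
    obtain ⟨c, t, ⟨q, hq⟩, hc⟩ := (pt_dt b).comp (hg.comp hx)
    refine polyTime_of_exec _ _ _ c q fun x => ?_
    rw [Position.code_eq, mkP_data]
    exact (hc x).weaken (hq x)
  · have : i ≠ (0 : Fin 2) := fun h0 => by rw [h0] at hi; simp at hi
    exact Bool.and_eq_false_iff.2 (Or.inl (decide_eq_false this))

end Pool.Agent.MP_8c4891_lc.Und
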